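import Pool.Agent.H24.LZ.Sets

/-!
Integral points on elliptic curves and the rank: for all quasi-minimal equations Lang's bound holds
for the integral points whose canonical height is at least `δ log H`.
-/

namespace Pool.Agent.Results.MP_a31e79_nt.CanonicalHeight

/-- The curve `E : y² = x³ + a x + b` over `ℚ`. -/
def curve (a b : ℤ) : WeierstrassCurve.Affine ℚ where
  a₁ := 0
  a₂ := 0
  a₃ := 0
  a₄ := a
  a₆ := b

/-- `D = 4a³ + 27b²`. -/
def D (a b : ℤ) : ℤ := 4 * a ^ 3 + 27 * b ^ 2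

/-- `D ≠ 0` and the equation is quasi-minimal: no prime `p` has `p⁴ ∣ a` and `p⁶ ∣ b`. -/
def QuasiMinimal (a b : ℤ) : Prop :=
  D a b ≠ 0 ∧ ∀ p : ℕ, p.Prime → ¬ ((p : ℤ) ^ 4 ∣ a ∧ (p : ℤ) ^ 6 ∣ b)

/-- `E(ℤ)`: the pairs of integers `(x, y)` with `y² = x³ + a x + b`. -/
def integralPoints (a b : ℤ) : Set (ℤ × ℤ) := {z | z.2 ^ 2 = z.1 ^ 3 + a * z.1 + b}

/-- `H = max(2, |a|^{1/2}, |b|^{1/3})`. -/
noncomputable def H (a b : ℤ) : ℝ :=
  max 2 (max (|(a : ℝ)| ^ ((1 : ℝ) / 2)) (|(b : ℝ)| ^ ((1 : ℝ) / 3)))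

/-- The naive height of `x(P)`: `0` at the origin, `log max(|n|, d)` if `x(P) = n/d` in lowest
terms. -/
noncomputable def naive {a b : ℤ} : (curve a b).Point → ℝ
  | .zero => 0
  | .some x _ _ => Real.log (max |(x.num : ℝ)| x.den)

/-- `g` is the canonical height for `x` (twice the Néron-Tate height): `g(P + P) = 4 g(P)`, and
`g - naive` is bounded. -/
structure IsCanonicalHeight {a b : ℤ} (g : (curve a b).Point → ℝ) : Prop where
  double : ∀ P, g (P + P) = 4 * g P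
  near : ∃ B : ℝ, ∀ P, |g P - naive P| ≤ B

/-- There is a constant `C` such that for every quasi-minimal equation `y² = x³ + a x + b` the
canonical height `g` exists and is unique, and for all `r ≥ rank E(ℚ)` the set `E(ℤ)` is finite
and for `0 < δ ≤ 1` at most `C^{1+r} (1/δ)^{2+r/2}` integral points `P` have `g(P) ≥ δ log H`. -/
theorem result : ∃ C : ℝ, 1 ≤ C ∧ ∀ a b : ℤ, QuasiMinimal a b →
    (∃! g : (curve a b).Point → ℝ, IsCanonicalHeight g) ∧
    ∀ r : ℕ, Module.rank ℤ (curve a b).Point ≤ r →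
    (integralPoints a b).Finite ∧
    ∀ g : (curve a b).Point → ℝ, IsCanonicalHeight g → ∀ δ : ℝ, 0 < δ → δ ≤ 1 →
    (({z | ∃ h : (curve a b).Nonsingular ((z.1 : ℤ) : ℚ) ((z.2 : ℤ) : ℚ),
      δ * Real.log (H a b) ≤ g (.some _ _ h)} : Set (ℤ × ℤ)).ncard : ℝ) ≤
      C ^ (1 + r) * (1 / δ) ^ (2 + (r : ℝ) / 2) := by
  classical
  obtain ⟨C₁, hC₁, hA⟩ := Pool.Agent.H24.LZ.main_A
  obtain ⟨C₃, hC₃, h3⟩ := Pool.Agent.H24.LR.main_T
  obtain ⟨Ch, hCh, hht⟩ := Pool.Agent.H24.LQ.exists_height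
  have hH : ∀ a b : ℤ, Real.exp (Pool.Agent.H24.LP.L a b) = H a b := by
    intro a b
    have e : ∀ (n : ℤ) (k : ℝ), 0 < k → max 2 (Real.exp (Real.log |(n : ℝ)| / k)) =
        max 2 (|(n : ℝ)| ^ ((1 : ℝ) / k)) := by
      intro n k hk
      by_cases hn : n = 0
      · subst hn
        have h1 : Real.exp (Real.log |((0 : ℤ) : ℝ)| / k) = 1 := by simp
        have h2 : |((0 : ℤ) : ℝ)| ^ ((1 : ℝ) / k) = 0 := by
          rw [Int.cast_zero, abs_zero, Real.zero_rpow (by positivity)]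
        rw [h1, h2, max_eq_left (by norm_num), max_eq_left (by norm_num)]
      · have hp : 0 < |(n : ℝ)| := abs_pos.mpr (by exact_mod_cast hn)
        rw [Real.rpow_def_of_pos hp]
        congr 2
        ring
    have e2 := e a 2 (by norm_num)
    have e3 := e b 3 (by norm_num)
    unfold Pool.Agent.H24.LP.L H
    rw [Real.exp_monotone.map_max, Real.exp_monotone.map_max, Real.exp_log (by norm_num)]
    rw [max_left_comm, e3, ← max_left_comm, ← max_assoc, e2, max_assoc]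
  have hL : ∀ a b : ℤ, Pool.Agent.H24.LP.L a b = Real.log (H a b) := by
    intro a b
    rw [← hH, Real.log_exp]
  have hnh : ∀ (a b : ℤ) (P : (curve a b).Point),
      naive P = Pool.Agent.H24.LQ.nh (a := a) (b := b) P := by
    intro a b P
    cases P with
    | zero =>
      show (0 : ℝ) = Real.log (max |((1 : ℤ) : ℝ)| |((0 : ℤ) : ℝ)|)
      simp
    | some x y h =>
      show Real.log (max |(x.num : ℝ)| x.den) = Real.log (max |((x.num : ℤ) : ℝ)| |(((x.den : ℕ) : ℤ) : ℝ)|)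
      have h1 : |(((x.den : ℕ) : ℤ) : ℝ)| = x.den := by
        rw [Int.cast_natCast]
        exact abs_of_nonneg (Nat.cast_nonneg _)
      rw [h1]
  have hcan : ∀ (a b : ℤ) (g : (curve a b).Point → ℝ), IsCanonicalHeight g →
      Pool.Agent.H24.LZ.IsCan (a := a) (b := b) g := by
    intro a b g hg
    refine ⟨hg.double, ?_⟩
    obtain ⟨B, hB⟩ := hg.near
    refine ⟨B, fun P => ?_⟩
    rw [← hnh]
    exact hB P
  refine ⟨C₁, hC₁, fun a b hq => ⟨?_, fun r hr => ⟨?_, ?_⟩⟩⟩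
  · obtain ⟨g, g1, g2, -⟩ := hht a b hq.1
    refine ⟨g, ⟨g1, ⟨20 * Pool.Agent.H24.LP.L a b, fun P => ?_⟩⟩, fun g' hg' => ?_⟩
    · rw [hnh]
      exact g2 P
    · exact Pool.Agent.H24.LZ.can_unique (hcan a b g' hg') ⟨g1, _, g2⟩
  · exact (h3 a b ⟨hq.1, hq.2⟩ r hr ∅).1
  · intro g hg δ hδ hδ1
    have hq' : Pool.Agent.H24.LP.QuasiMinimal a b := ⟨hq.1, hq.2⟩
    refine le_trans (le_of_eq ?_) (hA a b hq' g (hcan a b g hg) r hr δ hδ hδ1)
    have hset : ({z | ∃ h : (curve a b).Nonsingular ((z.1 : ℤ) : ℚ) ((z.2 : ℤ) : ℚ),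
        δ * Real.log (H a b) ≤ g (.some _ _ h)} : Set (ℤ × ℤ)) =
        {z | z ∈ Pool.Agent.H24.LP.integralPoints a b ∧
          δ * Pool.Agent.H24.LP.L a b ≤ g (Pool.Agent.H24.LR.toPt hq'.ne z)} := by
      ext z
      rw [Set.mem_ofPred_eq, Set.mem_ofPred_eq, hL]
      constructor
      · rintro ⟨h, h1⟩
        have h2 : z.2 ^ 2 = z.1 ^ 3 + a * z.1 + b := by
          have h4 := (WeierstrassCurve.Affine.equation_iff _ _).mp h.1
          simp only [curve] at h4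
          have h5 : ((z.2 : ℤ) : ℚ) ^ 2 = ((z.1 : ℤ) : ℚ) ^ 3 + a * ((z.1 : ℤ) : ℚ) + b := by
            linear_combination h4
          exact_mod_cast h5
        refine ⟨h2, ?_⟩
        rw [Pool.Agent.H24.LR.toPt_eq hq'.ne h2]
        exact h1
      · rintro ⟨h2, h1⟩
        refine ⟨Pool.Agent.H24.LR.nonsing hq'.ne h2, ?_⟩
        rw [Pool.Agent.H24.LR.toPt_eq hq'.ne h2] at h1
        exact h1
    rw [hset]

end Pool.Agent.Results.MP_a31e79_nt.CanonicalHeight
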