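import Pool.Agent.H83.LT.Final

/-!
Integral points on elliptic curves and the rank: for all quasi-minimal equations Lang's bound holds
for the integral points whose components at the bad primes are not equidistributed, or which do not
almost satisfy the divisibilities `y² ∣ D` and `y ∣ 3x² + a`.
-/

namespace Pool.Agent.Results.MP_a31e79_nt.EquidistributedComponents

/-- The curve `E : y² = x³ + a x + b` over `ℚ`. -/
def curve (a b : ℤ) : WeierstrassCurve.Affine ℚ where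
  a₁ := 0
  a₂ := 0
  a₃ := 0
  a₄ := a
  a₆ := b

/-- `D = 4a³ + 27b²`. -/
def D (a b : ℤ) : ℤ := 4 * a ^ 3 + 27 * b ^ 2

/-- `D ≠ 0` and the equation is quasi-minimal: no prime `p` has `p⁴ ∣ a` and `p⁶ ∣ b`. -/
def QuasiMinimal (a b : ℤ) : Prop :=
  D a b ≠ 0 ∧ ∀ p : ℕ, p.Prime → ¬ ((p : ℤ) ^ 4 ∣ a ∧ (p : ℤ) ^ 6 ∣ b)

/-- `E(ℤ)`: the pairs of integers `(x, y)` with `y² = x³ + a x + b`. -/
def integralPoints (a b : ℤ) : Set (ℤ × ℤ) := {z | z.2 ^ 2 = z.1 ^ 3 + a * z.1 + b}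

/-- `H = max(2, |a|^{1/2}, |b|^{1/3})`. -/
noncomputable def H (a b : ℤ) : ℝ :=
  max 2 (max (|(a : ℝ)| ^ ((1 : ℝ) / 2)) (|(b : ℝ)| ^ ((1 : ℝ) / 3)))

/-- The divisor `D_s` of `D` for the point `z = (x, y)`: the product of `p^{v_p(D)}` over the
primes `p` dividing `D` with `2 v_p(gcd(y, 3x² + a)) ≤ s v_p(D)`. -/
noncomputable def part (a b : ℤ) (z : ℤ × ℤ) (s : ℝ) : ℕ :=
  ∏ p ∈ (D a b).natAbs.primeFactors.filter (fun p =>
    2 * ((Int.gcd z.2 (3 * z.1 ^ 2 + a)).factorization p : ℝ) ≤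
      s * (D a b).natAbs.factorization p), p ^ (D a b).natAbs.factorization p

/-- The condition on the point `z = (x, y)`: `|x| ≤ H^{1+δ}`, `y² ∣ k D` and `y ∣ l (3x² + a)` for
some integers `1 ≤ k, l ≤ H^δ`, and `H^{6s-δ} ≤ D_s ≤ H^{6s+δ}` for all real `0 ≤ s ≤ 1`. -/
def Near (a b : ℤ) (δ : ℝ) (z : ℤ × ℤ) : Prop :=
  |(z.1 : ℝ)| ≤ H a b ^ (1 + δ) ∧
  (∃ k : ℕ, 0 < k ∧ (k : ℝ) ≤ H a b ^ δ ∧ z.2 ^ 2 ∣ k * D a b) ∧
  (∃ l : ℕ, 0 < l ∧ (l : ℝ) ≤ H a b ^ δ ∧ z.2 ∣ l * (3 * z.1 ^ 2 + a)) ∧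
  ∀ s : ℝ, 0 ≤ s → s ≤ 1 →
    H a b ^ (6 * s - δ) ≤ (part a b z s : ℝ) ∧ (part a b z s : ℝ) ≤ H a b ^ (6 * s + δ)

/-- There is a constant `C` such that for every quasi-minimal equation `y² = x³ + a x + b`, every
`r ≥ rank E(ℚ)` and `0 < δ ≤ 1` the set `E(ℤ)` is finite and all but at most
`C^{1+r} (1/δ)^{4+3r/4}` integral points satisfy the condition `Near a b δ`. -/
theorem result : ∃ C : ℝ, 1 ≤ C ∧ ∀ a b : ℤ, QuasiMinimal a b →
    ∀ r : ℕ, Module.rank ℤ (curve a b).Point ≤ r →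
    (integralPoints a b).Finite ∧
    ∀ δ : ℝ, 0 < δ → δ ≤ 1 →
    (({z | z ∈ integralPoints a b ∧ ¬ Near a b δ z} : Set (ℤ × ℤ)).ncard : ℝ) ≤
      C ^ (1 + r) * (1 / δ) ^ (4 + 3 * (r : ℝ) / 4) := by
  classical
  obtain ⟨C, hC, hN⟩ := Pool.Agent.H83.LT.main_E
  have hH : ∀ a b : ℤ, Real.exp (Pool.Agent.H24.LP.L a b) = H a b := by
    intro a b
    have e : ∀ (n : ℤ) (k : ℝ), 0 < k → max 2 (Real.exp (Real.log |(n : ℝ)| / k)) =
        max 2 (|(n : ℝ)| ^ ((1 : ℝ) / k)) := by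
      intro n k hk
      by_cases hn : n = 0
      · subst hn
        have h1 : Real.exp (Real.log |((0 : ℤ) : ℝ)| / k) = 1 := by simp
        have h2 : |((0 : ℤ) : ℝ)| ^ ((1 : ℝ) / k) = 0 := by
          rw [Int.cast_zero, abs_zero, Real.zero_rpow (by positivity)]
        rw [h1, h2, max_eq_left (by norm_num), max_eq_left (by norm_num)]
      · have hp : 0 < |(n : ℝ)| := abs_pos.mpr (by exact_mod_cast hn)
        rw [Real.rpow_def_of_pos hp]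
        congr 2
        ring
    have e2 := e a 2 (by norm_num)
    have e3 := e b 3 (by norm_num)
    unfold Pool.Agent.H24.LP.L H
    rw [Real.exp_monotone.map_max, Real.exp_monotone.map_max, Real.exp_log (by norm_num)]
    rw [max_left_comm, e3, ← max_left_comm, ← max_assoc, e2, max_assoc]
  have hHt : ∀ (a b : ℤ) (t : ℝ), H a b ^ t = Real.exp (t * Pool.Agent.H24.LP.L a b) := by
    intro a b t
    rw [← hH, ← Real.exp_mul]
    congr 1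
    ring
  refine ⟨C, hC, fun a b hq r hr => ?_⟩
  have hq' : Pool.Agent.H24.LP.QuasiMinimal a b := ⟨hq.1, hq.2⟩
  obtain ⟨hfin, h⟩ := hN a b hq' r hr
  refine ⟨hfin, fun δ hδ hδ1 => ?_⟩
  refine le_trans ?_ (h δ hδ hδ1)
  have hsub : ({z | z ∈ integralPoints a b ∧ ¬ Near a b δ z} : Set (ℤ × ℤ)) ⊆
      {z | z ∈ Pool.Agent.H24.LP.integralPoints a b ∧ ¬ Pool.Agent.H83.LT.NearE a b δ z} := by
    rintro z ⟨hz, hn⟩
    refine ⟨hz, fun hE => hn ?_⟩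
    obtain ⟨⟨h1, -⟩, ⟨k, hk0, hk1, hk2⟩, ⟨l, hl0, hl1, hl2⟩, h4⟩ := hE
    refine ⟨?_, ⟨k, hk0, ?_, hk2⟩, ⟨l, hl0, ?_, hl2⟩, fun s hs0 hs1 => ?_⟩
    · rw [hHt]
      exact h1
    · rw [hHt]
      exact hk1
    · rw [hHt]
      exact hl1
    · rw [hHt, hHt]
      exact h4 s hs0 hs1
  exact_mod_cast Set.ncard_le_ncard hsub (hfin.subset fun z hz => hz.1)

end Pool.Agent.Results.MP_a31e79_nt.EquidistributedComponents
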