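import Pool.Agent.H24.LZ.FinalK

/-!
Integral points on elliptic curves and the rank: unconditional bounds for all quasi-minimal
equations, polynomial in the number of primes whose square divides the denominator of `j` for
fixed rank.
-/

namespace Pool.Agent.Results.MP_a31e79_nt.RankBound

/-- The curve `E : y² = x³ + a x + b` over `ℚ`. -/
def curve (a b : ℤ) : WeierstrassCurve.Affine ℚ where
  a₁ := 0
  a₂ := 0
  a₃ := 0
  a₄ := a
  a₆ := b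

/-- `D = 4a³ + 27b²`. -/
def D (a b : ℤ) : ℤ := 4 * a ^ 3 + 27 * b ^ 2

/-- `j = 1728 · 4a³/(4a³ + 27b²)`. -/
def jInv (a b : ℤ) : ℚ := 1728 * (4 * (a : ℚ) ^ 3 / (4 * (a : ℚ) ^ 3 + 27 * (b : ℚ) ^ 2))

/-- `D ≠ 0` and the equation is quasi-minimal: no prime `p` has `p⁴ ∣ a` and `p⁶ ∣ b`. -/
def QuasiMinimal (a b : ℤ) : Prop :=
  D a b ≠ 0 ∧ ∀ p : ℕ, p.Prime → ¬ ((p : ℤ) ^ 4 ∣ a ∧ (p : ℤ) ^ 6 ∣ b)

/-- `E(ℤ)`: the pairs of integers `(x, y)` with `y² = x³ + a x + b`. -/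
def integralPoints (a b : ℤ) : Set (ℤ × ℤ) := {z | z.2 ^ 2 = z.1 ^ 3 + a * z.1 + b}

/-- `L = log max(2, |a|^{1/2}, |b|^{1/3})`. -/
noncomputable def L (a b : ℤ) : ℝ :=
  max (Real.log 2) (max (Real.log |(a : ℝ)| / 2) (Real.log |(b : ℝ)| / 3))

/-- The primes dividing the denominator of `j`. -/
def poles (a b : ℤ) : Finset ℕ := (jInv a b).den.primeFactors

/-- `n_p`: the exponent of `p` in the denominator of `j`. -/
def np (a b : ℤ) (p : ℕ) : ℕ := (jInv a b).den.factorization p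

/-- `w_m`: the number of primes `p` with `n_p > m`. -/
def w (a b : ℤ) (m : ℕ) : ℕ := ((poles a b).filter fun p => m < np a b p).card

/-- `log⁺ |j|`. -/
noncomputable def logj (a b : ℤ) : ℝ := max 0 (Real.log |(jInv a b : ℝ)|)

/-- `A = ∑ v_p(D) log p` over the primes `p ≥ 5` which divide both `D` and `a` (the primes `p ≥ 5`
of additive reduction). -/
noncomputable def A (a b : ℤ) : ℝ :=
  ∑ p ∈ (D a b).natAbs.primeFactors.filter (fun p : ℕ => 5 ≤ p ∧ (p : ℤ) ∣ a),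
    ((D a b).natAbs.factorization p : ℝ) * Real.log p

/-- `G_0 = 1 + log⁺ |j| + ∑_{p ∣ den j} (log p)/n_p + A`. -/
noncomputable def G (a b : ℤ) : ℝ :=
  1 + logj a b + ∑ p ∈ poles a b, Real.log p / np a b p + A a b

/-- `Q(T) = (∑_{p ∈ T} (n_p log p)²)^{1/2}`. -/
noncomputable def Q (a b : ℤ) (T : Finset ℕ) : ℝ :=
  Real.sqrt (∑ p ∈ T, ((np a b p : ℝ) * Real.log p) ^ 2)

/-- There is a constant `C` such that for every quasi-minimal equation `y² = x³ + a x + b` and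
every `r ≥ rank E(ℚ)` the set `E(ℤ)` is finite and
(1) `|E(ℤ)| ≤ C^{1+r+k} (m^{2+r/2} + x^e)`, `x = max(1, w_m/k)`, `e = min(1+r/4, 1/2+k+r/8)`, for
all `k, m ≥ 1`;
(2) `|E(ℤ)| ≤ C^{1+r+k} ∏ (1+|T_i|) (L/(G_0 + ∑ Q(T_i)))^{1+r/4}` for all pairwise disjoint finite
sets `T_1, …, T_k`;
(3) `|E(ℤ)| ≤ C^{1+r+k} y^f`, `y = max(1, L/(k log(2+L)))`, `f = min((4+r)/6, (4+8k+r)/10)`, for
all `k ≥ 1`. -/
theorem result : ∃ C : ℝ, 1 ≤ C ∧ ∀ a b : ℤ, QuasiMinimal a b →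
    ∀ r : ℕ, Module.rank ℤ (curve a b).Point ≤ r →
    (integralPoints a b).Finite ∧
    (∀ k m : ℕ, 1 ≤ k → 1 ≤ m → ((integralPoints a b).ncard : ℝ) ≤ C ^ (1 + r + k) *
      ((m : ℝ) ^ (2 + (r : ℝ) / 2) + (max 1 ((w a b m : ℝ) / k)) ^
        min (1 + (r : ℝ) / 4) (1 / 2 + (k : ℝ) + (r : ℝ) / 8))) ∧
    (∀ (k : ℕ) (T : Fin k → Finset ℕ), (∀ i i', i ≠ i' → Disjoint (T i) (T i')) →
      ((integralPoints a b).ncard : ℝ) ≤ C ^ (1 + r + k) * (∏ i, (1 + ((T i).card : ℝ))) *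
        (L a b / (G a b + ∑ i, Q a b (T i))) ^ (1 + (r : ℝ) / 4)) ∧
    (∀ k : ℕ, 1 ≤ k → ((integralPoints a b).ncard : ℝ) ≤ C ^ (1 + r + k) *
      (max 1 (L a b / (k * Real.log (2 + L a b)))) ^
        min ((4 + (r : ℝ)) / 6) ((4 + 8 * (k : ℝ) + r) / 10)) := by
  obtain ⟨C₁, hC₁, h₁⟩ := Pool.Agent.H24.LZ.final_km
  obtain ⟨C₂, hC₂, h₂⟩ := Pool.Agent.H24.LZ.main_blocks
  obtain ⟨C₃, hC₃, h₃⟩ := Pool.Agent.H24.LZ.final_kL
  obtain ⟨C₄, hC₄, h₄⟩ := Pool.Agent.H24.LZ.main_ZA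
  refine ⟨C₁ + C₂ + C₃, by linarith, fun a b hq r hr => ?_⟩
  have hq' : Pool.Agent.H24.LP.QuasiMinimal a b := ⟨hq.1, hq.2⟩
  obtain ⟨hf, -⟩ := h₄ a b hq' r hr
  have hL : 0 < L a b := Pool.Agent.H24.LP.L_pos a b
  have hGA : G a b = Pool.Agent.H24.LZ.GA a b ∅ := by
    have e : Pool.Agent.H24.LZ.GA a b ∅ = 1 + logj a b +
        ∑ p ∈ (∅ : Finset ℕ), (np a b p : ℝ) * Real.log p +
        ∑ p ∈ poles a b, Real.log p / np a b p + A a b := rfl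
    rw [e, Finset.sum_empty, add_zero]
    rfl
  have hG : 0 < G a b := by
    rw [hGA]
    have h1 := Pool.Agent.H24.LQ.one_le_GT a b ∅
    have h2 := Pool.Agent.H24.LZ.GT_le_GA (a := a) (b := b) ∅ hq'.ne
    exact lt_of_lt_of_le one_pos (h1.trans h2)
  have hmono : ∀ (C' : ℝ) (n : ℕ) (X : ℝ), 1 ≤ C' → C' ≤ C₁ + C₂ + C₃ → 0 ≤ X →
      C' ^ n * X ≤ (C₁ + C₂ + C₃) ^ n * X := fun C' n X h1 h2 h3 =>
    mul_le_mul_of_nonneg_right (pow_le_pow_left₀ (by linarith) h2 n) h3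
  refine ⟨hf, fun k m hk hm => ?_, fun k T hT => ?_, fun k hk => ?_⟩
  · have e0 : (0 : ℝ) ≤ max 1 ((w a b m : ℝ) / k) := le_trans zero_le_one (le_max_left _ _)
    exact (h₁ a b hq' r hr k m hk hm).trans (hmono C₁ _ _ hC₁ (by linarith)
      (add_nonneg (Real.rpow_nonneg (Nat.cast_nonneg m) _) (Real.rpow_nonneg e0 _)))
  · have hQ : 0 ≤ ∑ i, Q a b (T i) := Finset.sum_nonneg fun i _ => Real.sqrt_nonneg _
    have e1 : 0 ≤ L a b / (G a b + ∑ i, Q a b (T i)) := div_nonneg hL.le (by linarith)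
    have e2 : 0 ≤ ∏ i, (1 + ((T i).card : ℝ)) := Finset.prod_nonneg fun i _ => by positivity
    have h5 := h₂ a b hq' r hr k T hT
    rw [← hGA] at h5
    refine h5.trans ?_
    rw [mul_assoc, mul_assoc]
    exact hmono C₂ _ _ hC₂ (by linarith) (mul_nonneg e2 (Real.rpow_nonneg e1 _))
  · have e0 : (0 : ℝ) ≤ max 1 (L a b / (k * Real.log (2 + L a b))) :=
      le_trans zero_le_one (le_max_left _ _)
    exact (h₃ a b hq' r hr k hk).trans (hmono C₃ _ _ hC₃ (by linarith) (Real.rpow_nonneg e0 _))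

end Pool.Agent.Results.MP_a31e79_nt.RankBound
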