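import Pool.Agent.H24.LZ.Sets

/-!
Integral points on elliptic curves and the rank: for all quasi-minimal equations a bound for the
integral points with a large abscissa, with an abscissa in a short interval, or in a residue class.
-/

namespace Pool.Agent.Results.MP_a31e79_nt.ShortIntervals

/-- The curve `E : y² = x³ + a x + b` over `ℚ`. -/
def curve (a b : ℤ) : WeierstrassCurve.Affine ℚ where
  a₁ := 0
  a₂ := 0
  a₃ := 0
  a₄ := a
  a₆ := b

/-- `D = 4a³ + 27b²`. -/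
def D (a b : ℤ) : ℤ := 4 * a ^ 3 + 27 * b ^ 2

/-- `D ≠ 0` and the equation is quasi-minimal: no prime `p` has `p⁴ ∣ a` and `p⁶ ∣ b`. -/
def QuasiMinimal (a b : ℤ) : Prop :=
  D a b ≠ 0 ∧ ∀ p : ℕ, p.Prime → ¬ ((p : ℤ) ^ 4 ∣ a ∧ (p : ℤ) ^ 6 ∣ b)

/-- `E(ℤ)`: the pairs of integers `(x, y)` with `y² = x³ + a x + b`. -/
def integralPoints (a b : ℤ) : Set (ℤ × ℤ) := {z | z.2 ^ 2 = z.1 ^ 3 + a * z.1 + b}

/-- `H = max(2, |a|^{1/2}, |b|^{1/3})`. -/
noncomputable def H (a b : ℤ) : ℝ :=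
  max 2 (max (|(a : ℝ)| ^ ((1 : ℝ) / 2)) (|(b : ℝ)| ^ ((1 : ℝ) / 3)))

/-- There is a constant `C` such that for every quasi-minimal equation `y² = x³ + a x + b` and
every `r ≥ rank E(ℚ)` the set `E(ℤ)` is finite and each of the following sets of integral points
has at most `C^{1+r} max(1, log H / log t)^{1+r/4}` elements:
(1) those with `|x| ≥ t H`, for any real `t > 1`;
(2) those with `|x - x₀| ≤ H/t`, for any reals `t > 1` and `x₀`;
(3) those with `x ≡ x₀` and `y ≡ y₀ mod q`, for any integer `q > 1` coprime to `6D`, any integers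
`x₀`, `y₀`, and `t = q`. -/
theorem result : ∃ C : ℝ, 1 ≤ C ∧ ∀ a b : ℤ, QuasiMinimal a b →
    ∀ r : ℕ, Module.rank ℤ (curve a b).Point ≤ r →
    (integralPoints a b).Finite ∧
    (∀ t : ℝ, 1 < t →
      (({z | z ∈ integralPoints a b ∧ t * H a b ≤ |(z.1 : ℝ)|} : Set (ℤ × ℤ)).ncard : ℝ) ≤
        C ^ (1 + r) * (max 1 (Real.log (H a b) / Real.log t)) ^ (1 + (r : ℝ) / 4)) ∧
    (∀ t : ℝ, 1 < t → ∀ x₀ : ℝ,
      (({z | z ∈ integralPoints a b ∧ |(z.1 : ℝ) - x₀| ≤ H a b / t} : Set (ℤ × ℤ)).ncard : ℝ) ≤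
        C ^ (1 + r) * (max 1 (Real.log (H a b) / Real.log t)) ^ (1 + (r : ℝ) / 4)) ∧
    (∀ q : ℕ, 1 < q → Nat.Coprime q (6 * D a b).natAbs → ∀ x₀ y₀ : ℤ,
      (({z | z ∈ integralPoints a b ∧ ((q : ℤ) ∣ z.1 - x₀ ∧ (q : ℤ) ∣ z.2 - y₀)} :
        Set (ℤ × ℤ)).ncard : ℝ) ≤
        C ^ (1 + r) * (max 1 (Real.log (H a b) / Real.log q)) ^ (1 + (r : ℝ) / 4)) := by
  obtain ⟨C, hC, h⟩ := Pool.Agent.H24.LZ.main_S
  obtain ⟨C', hC', h'⟩ := Pool.Agent.H24.LR.main_T
  have hH : ∀ a b : ℤ, Real.exp (Pool.Agent.H24.LP.L a b) = H a b := by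
    intro a b
    have e : ∀ (n : ℤ) (k : ℝ), 0 < k → max 2 (Real.exp (Real.log |(n : ℝ)| / k)) =
        max 2 (|(n : ℝ)| ^ ((1 : ℝ) / k)) := by
      intro n k hk
      by_cases hn : n = 0
      · subst hn
        have h1 : Real.exp (Real.log |((0 : ℤ) : ℝ)| / k) = 1 := by simp
        have h2 : |((0 : ℤ) : ℝ)| ^ ((1 : ℝ) / k) = 0 := by
          rw [Int.cast_zero, abs_zero, Real.zero_rpow (by positivity)]
        rw [h1, h2, max_eq_left (by norm_num), max_eq_left (by norm_num)]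
      · have hp : 0 < |(n : ℝ)| := abs_pos.mpr (by exact_mod_cast hn)
        rw [Real.rpow_def_of_pos hp]
        congr 2
        ring
    have e2 := e a 2 (by norm_num)
    have e3 := e b 3 (by norm_num)
    unfold Pool.Agent.H24.LP.L H
    rw [Real.exp_monotone.map_max, Real.exp_monotone.map_max, Real.exp_log (by norm_num)]
    rw [max_left_comm, e3, ← max_left_comm, ← max_assoc, e2, max_assoc]
  refine ⟨C, hC, fun a b hq r hr => ?_⟩
  have hq' : Pool.Agent.H24.LP.QuasiMinimal a b := ⟨hq.1, hq.2⟩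
  obtain ⟨h1, h2, h3⟩ := h a b hq' r hr
  have hL : Pool.Agent.H24.LP.L a b = Real.log (H a b) := by rw [← hH, Real.log_exp]
  refine ⟨(h' a b hq' r hr ∅).1, fun t ht => ?_, fun t ht x₀ => ?_, fun q hq1 hcop x₀ y₀ => ?_⟩
  · have ht0 : 0 < t := by linarith
    have := h1 (Real.log t) (Real.log_pos ht)
    rw [Real.exp_add, hH, Real.exp_log ht0, mul_comm (H a b) t] at this
    rw [hL] at this
    exact this
  · have ht0 : 0 < t := by linarith
    have := h2 (Real.log t) (Real.log_pos ht) x₀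
    rw [Real.exp_sub, hH, Real.exp_log ht0] at this
    rw [hL] at this
    exact this
  · have := h3 q hq1 hcop (x₀, y₀)
    rw [hL] at this
    exact this

end Pool.Agent.Results.MP_a31e79_nt.ShortIntervals
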